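import Pool.Agent.Helper50.AY.St

/-! # Project AY, module INA (strong induction on the order of the ring) -/

set_option autoImplicit false

namespace Pool.Agent.Helper41.AY

open Pool.Agent.Helper50.AY Pool.Agent.Helper43.GD Polynomial

theorem hINA (hHAT : Pool.Agent.Helper43.GD.StHAT) (hCEL : Pool.Agent.Helper43.GD.StCEL)
    (hPFA : StPFA) (hAUA : StAUA) (hSEA : StSEA) (hFLD : StFLD) (hRA : StRA) : StINA := by
  intro p k
  suffices key : ∀ n : ℕ, ∀ (L : Type) [CommRing L] (x : Lˣ), RgA L p k x → Nat.card L = n →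
      FinP L x by
    intro L _ x hR
    exact key _ L x hR rfl
  intro n
  induction n using Nat.strong_induction_on with
  | _ n ih =>
  intro L _ x hR hn A _ s' h1 hx
  rcases subsingleton_or_nontrivial L with hL | hL
  · have hE : ∀ a, s'.E a = 1 := fun a => by rw [Subsingleton.elim a 0, s'.E_zero]
    have hF : ∀ a, s'.F a = 1 := fun a => by rw [Subsingleton.elim a 0, s'.F_zero]
    have hbot : s'.gp = ⊥ := by
      rw [Sys.gp, Subgroup.closure_eq_bot_iff]
      rintro y (⟨a, rfl⟩ | ⟨a, rfl⟩)
      · simp [hE]
      · simp [hF]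
    rw [hbot]
    infer_instance
  · haveI hpf : Fact p.Prime := ⟨hR.prime⟩
    obtain ⟨-, -, -, h2, hRf⟩ := hRA L p k x hR
    obtain ⟨H, _, s, hs⟩ := hHAT L x
    have hP := hPFA L H x s hRf hs.1 hs.2.1 hs.2.2.1
    obtain ⟨Q, hxU, hQE, hQF⟩ := hAUA L H x s hRf hs
    have hfin : Finite Q.gp := by
      by_cases hf : IsField L
      · have hall := hFLD L _ Q p k x hR hxU hf
        have hloc : IsLocalRing L := by
          letI := hf.toField
          infer_instance
        exact hCEL L _ Q hR.fin hloc h2 hall
      · exact hSEA L _ Q p k x hR hxU hL hf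
          (fun L' _ x' hR' hc => ih _ (by omega) L' x' hR' rfl)
    have hmem : ∀ g : H, MulAut.conj g ∈ Q.gp := by
      have hle : s.gp ≤ Q.gp.comap MulAut.conj := by
        rw [Sys.gp, Subgroup.closure_le]
        rintro y (⟨a, rfl⟩ | ⟨a, rfl⟩)
        · change MulAut.conj (s.E a) ∈ Q.gp
          rw [← hQE]
          exact Q.E_mem a
        · change MulAut.conj (s.F a) ∈ Q.gp
          rw [← hQF]
          exact Q.F_mem a
      intro g
      have : g ∈ s.gp := by rw [hs.2.2.1]; trivial
      exact hle this
    have hfc : Finite (H ⧸ Subgroup.center H) := by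
      apply Finite.of_injective
        (fun q : H ⧸ Subgroup.center H => (⟨MulAut.conj q.out, hmem _⟩ : Q.gp))
      intro p q hpq
      have h2 : MulAut.conj p.out = MulAut.conj q.out := congrArg Subtype.val hpq
      have h3 : ((p.out : H) : H ⧸ Subgroup.center H) = ((q.out : H) : H ⧸ Subgroup.center H) := by
        rw [QuotientGroup.eq, Subgroup.mem_center_iff]
        intro g
        have h4 : p.out * g * (p.out)⁻¹ = q.out * g * (q.out)⁻¹ := by
          have := congrArg (fun f : MulAut H => f g) h2
          simpa [MulAut.conj_apply] using this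
        have h5 : g * (p.out⁻¹ * q.out) = p.out⁻¹ * (p.out * g * (p.out)⁻¹) * q.out := by group
        rw [h5, h4]
        group
      simpa using h3
    have hH : Finite H := Pool.Agent.Helper60.DZ2.Red_schur hP
    obtain ⟨φ, hφE, hφF⟩ := hs.2.2.2 A s' h1 hx
    have hle : s'.gp ≤ φ.range := by
      rw [Sys.gp, Subgroup.closure_le]
      rintro y (⟨a, rfl⟩ | ⟨a, rfl⟩)
      · exact ⟨s.E a, hφE a⟩
      · exact ⟨s.F a, hφF a⟩
    have hr : (φ.range : Set A).Finite := by
      rw [MonoidHom.coe_range]
      exact Set.finite_range φ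
    exact (hr.subset hle).to_subtype

end Pool.Agent.Helper41.AY
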